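import Pool.Agent.helper4.HL.Spec

/-!
# Project hl: module RKA (rank of apparition)
-/

namespace Pool.Agent.HL

open Pool.Agent.helper86.CM Pool.Agent.QS Filter MeasureTheory
open scoped BigOperators ComplexOrder ComplexConjugate Topology

/-- the step map of the recursion modulo `Q` -/
def RKA_f (t : ℤ) (Q : ℕ) (x : ZMod Q × ZMod Q) : ZMod Q × ZMod Q := (x.2, (t : ZMod Q) * x.2 - x.1)

def RKA_g (t : ℤ) (Q : ℕ) (x : ZMod Q × ZMod Q) : ZMod Q × ZMod Q := ((t : ZMod Q) * x.1 - x.2, x.1)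

def RKA_e (t : ℤ) (Q : ℕ) : Equiv.Perm (ZMod Q × ZMod Q) where
  toFun := RKA_f t Q
  invFun := RKA_g t Q
  left_inv := by
    rintro ⟨a, b⟩
    simp [RKA_f, RKA_g]
  right_inv := by
    rintro ⟨a, b⟩
    simp [RKA_f, RKA_g]

theorem RKA_pow (t : ℤ) (Q : ℕ) (k : ℕ) :
    (RKA_e t Q ^ k) (0, 1) = ((lu t k : ZMod Q), (lu t (k + 1) : ZMod Q)) := by
  induction k with
  | zero => simp [lu]
  | succ k ih =>
    rw [pow_succ', Equiv.Perm.mul_apply, ih]
    show RKA_f t Q _ = _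
    unfold RKA_f
    have h : lu t (k + 1 + 1) = t * lu t (k + 1) - lu t k := rfl
    rw [h]
    simp

theorem RKA : RKA_stmt := by
  intro t Q hQ
  have : NeZero Q := ⟨by omega⟩
  refine ⟨orderOf (RKA_e t Q), orderOf_pos _, fun j => ?_⟩
  have h1 : (RKA_e t Q ^ (orderOf (RKA_e t Q) * j)) (0, 1) = (0, 1) := by
    rw [pow_mul, pow_orderOf_eq_one, one_pow]
    rfl
  rw [RKA_pow] at h1
  have h2 := congrArg Prod.fst h1
  exact (ZMod.intCast_zmod_eq_zero_iff_dvd _ _).1 h2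

end Pool.Agent.HL
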